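import Pool.Agent.H553R3.W.LapB

set_option autoImplicit false

open Finset ArithmeticFunction Filter Topology Complex MeasureTheory

namespace Pool.Agent.H553R3.W

open Pool.Agent.H295R3.W

theorem S_meas : Measurable S := by
  have h : S = (fun n : ℕ => ∑ k ∈ Icc 1 n, f k) ∘ (Nat.floor : ℝ → ℕ) := rfl
  rw [h]
  exact (measurable_from_nat (f := fun n : ℕ => ∑ k ∈ Icc 1 n, f k)).comp Nat.measurable_floor

theorem S_bound (A x₀ : ℝ) (hA : 0 ≤ A) (h : ∀ x : ℝ, x₀ ≤ x → |S x| ≤ A * x) :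
    ∃ B : ℝ, 0 ≤ B ∧ ∀ t : ℝ, 1 ≤ t → |S t| ≤ A * t + B := by
  refine ⟨∑ n ∈ Icc 1 ⌊x₀⌋₊, |f n|, Finset.sum_nonneg (fun _ _ => abs_nonneg _), ?_⟩
  intro t ht
  have hB : 0 ≤ ∑ n ∈ Icc 1 ⌊x₀⌋₊, |f n| := Finset.sum_nonneg (fun _ _ => abs_nonneg _)
  rcases le_total x₀ t with h1 | h1
  · have := h t h1
    linarith
  · have h2 : |S t| ≤ ∑ n ∈ Icc 1 ⌊x₀⌋₊, |f n| := by
      unfold S
      refine (Finset.abs_sum_le_sum_abs _ _).trans ?_
      apply Finset.sum_le_sum_of_subset_of_nonneg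
      · exact Finset.Icc_subset_Icc_right (Nat.floor_le_floor h1)
      · intro _ _ _; exact abs_nonneg _
    have : 0 ≤ A * t := by positivity
    linarith

/-- the Mellin transform of `S` -/
noncomputable def F (σ θ : ℝ) : ℂ := ∫ t in Set.Ioi (1:ℝ), ((S t * t ^ (-σ - 1) : ℝ) : ℂ) * X θ t

theorem kbound (A B : ℝ) (hA : 0 ≤ A) (hB : 0 ≤ B) (h : ∀ t : ℝ, 1 ≤ t → |S t| ≤ A * t + B)
    (σ t : ℝ) (ht : 1 < t) : |S t * t ^ (-σ - 1)| ≤ A * t ^ (-σ) + B * t ^ (-σ - 1) := by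
  have ht' : (0:ℝ) < t := lt_trans one_pos ht
  have hp : 0 < t ^ (-σ - 1) := Real.rpow_pos_of_pos ht' _
  rw [abs_mul, abs_of_pos hp]
  have h1 := mul_le_mul_of_nonneg_right (h t ht.le) hp.le
  have h2 : t * t ^ (-σ - 1) = t ^ (-σ) := by
    have := Real.rpow_add ht' 1 (-σ - 1)
    rw [Real.rpow_one] at this
    rw [← this]
    congr 1
    ring
  calc |S t| * t ^ (-σ - 1) ≤ (A * t + B) * t ^ (-σ - 1) := h1
    _ = A * (t * t ^ (-σ - 1)) + B * t ^ (-σ - 1) := by ring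
    _ = _ := by rw [h2]

theorem rint (σ : ℝ) (hσ : 1 < σ) : IntegrableOn (fun t : ℝ => t ^ (-σ)) (Set.Ioi 1) :=
  integrableOn_Ioi_rpow_of_lt (by linarith) one_pos

theorem rint1 (σ : ℝ) (hσ : 1 < σ) : IntegrableOn (fun t : ℝ => t ^ (-σ - 1)) (Set.Ioi 1) :=
  integrableOn_Ioi_rpow_of_lt (by linarith) one_pos

theorem F_intg (A B : ℝ) (hA : 0 ≤ A) (hB : 0 ≤ B) (h : ∀ t : ℝ, 1 ≤ t → |S t| ≤ A * t + B)
    (σ θ : ℝ) (hσ : 1 < σ) :
    IntegrableOn (fun t : ℝ => ((S t * t ^ (-σ - 1) : ℝ) : ℂ) * X θ t) (Set.Ioi 1) := by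
  have hg : IntegrableOn (fun t : ℝ => A * t ^ (-σ) + B * t ^ (-σ - 1)) (Set.Ioi 1) :=
    ((rint σ hσ).const_mul A).add ((rint1 σ hσ).const_mul B)
  refine Integrable.mono' hg ?_ ?_
  · apply AEStronglyMeasurable.mul
    · apply Measurable.aestronglyMeasurable
      apply Complex.measurable_ofReal.comp
      exact S_meas.mul (measurable_id.pow_const _)
    · exact (X_cont θ).aestronglyMeasurable measurableSet_Ioi
  · rw [ae_restrict_iff' measurableSet_Ioi]
    filter_upwards with t ht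
    have ht' : (0:ℝ) < t := lt_trans one_pos ht
    rw [norm_mul, X_norm θ t ht', mul_one, Complex.norm_real, Real.norm_eq_abs]
    exact kbound A B hA hB h σ t ht

theorem F_conj (σ θ : ℝ) : (starRingEnd ℂ) (F σ θ) = F σ (-θ) := by
  unfold F
  rw [← integral_conj]
  apply setIntegral_congr_fun measurableSet_Ioi
  intro t ht
  have ht' : (0:ℝ) < t := lt_trans one_pos ht
  simp only
  rw [map_mul, Complex.conj_ofReal, X_conj _ _ ht']

theorem dirF (A x₀ : ℝ) (h : ∀ x : ℝ, x₀ ≤ x → |S x| ≤ A * x) (σ θ : ℝ) (hσ : 1 < σ) :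
    ((σ : ℂ) - 1) * Dir (σ + θ * I) / (σ + θ * I) = ((σ : ℂ) - 1) * F σ (-θ) := by
  have hre : ((σ : ℂ) + θ * I).re = σ := by simp
  have hs : 1 < ((σ : ℂ) + θ * I).re := by rw [hre]; exact hσ
  have hs0 : ((σ : ℂ) + θ * I) ≠ 0 := by
    intro h0
    rw [h0] at hs
    norm_num at hs
  have hO : (fun n : ℕ ↦ ∑ k ∈ Icc 1 n, (f k : ℂ)) =O[atTop] fun n : ℕ ↦ (n : ℝ) ^ (1 : ℝ) := by
    apply Asymptotics.IsBigO.of_bound A
    filter_upwards [eventually_ge_atTop ⌈x₀⌉₊] with n hn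
    have hn' : x₀ ≤ n := (Nat.le_ceil x₀).trans (by exact_mod_cast hn)
    have h1 := h n hn'
    unfold S at h1
    rw [Nat.floor_natCast] at h1
    rw [← Complex.ofReal_sum, Complex.norm_real, Real.norm_eq_abs, Real.rpow_one,
      Real.norm_of_nonneg (Nat.cast_nonneg n)]
    exact h1
  have key := LSeries_eq_mul_integral (fun n => (f n : ℂ)) (r := 1) zero_le_one hs (lsumm _ hs) hO
  have hJ : (∫ t in Set.Ioi (1 : ℝ), (∑ k ∈ Icc 1 ⌊t⌋₊, (f k : ℂ)) * (t : ℂ) ^ (-(((σ : ℂ) + θ * I) + 1))) =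
      F σ (-θ) := by
    unfold F
    apply setIntegral_congr_fun measurableSet_Ioi
    intro t ht
    have ht' : (0:ℝ) < t := lt_trans one_pos ht
    simp only [X, S]
    rw [Complex.ofReal_mul, Complex.ofReal_cpow ht'.le, Complex.ofReal_sum, mul_assoc,
      ← Complex.cpow_add _ _ (by exact_mod_cast ht'.ne')]
    congr 2
    push_cast
    ring
  rw [dir_eq _ hs, key, hJ]
  field_simp

/-- optimisation of the arithmetic-geometric mean parameter -/
theorem opt (L A a b : ℝ) (hA : 0 ≤ A) (ha : 0 ≤ a) (hb : 0 ≤ b)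
    (h : ∀ τ : ℝ, 0 < τ → L ≤ A * ((τ * a + b / τ) / 2)) : L ≤ A * √a * √b := by
  have h1 : ∀ ε : ℝ, 0 < ε → L ≤ A * ((√a + ε) * (√b + ε)) := by
    intro ε hε
    have hsa := Real.sqrt_nonneg a
    have hsb := Real.sqrt_nonneg b
    have pa : 0 < √a + ε := by linarith
    have pb : 0 < √b + ε := by linarith
    refine (h ((√b + ε) / (√a + ε)) (by positivity)).trans ?_
    apply mul_le_mul_of_nonneg_left _ hA
    have ea : a ≤ (√a + ε) ^ 2 := by
      have := Real.sq_sqrt ha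
      nlinarith
    have eb : b ≤ (√b + ε) ^ 2 := by
      have := Real.sq_sqrt hb
      nlinarith
    have e1 : (√b + ε) / (√a + ε) * a ≤ (√a + ε) * (√b + ε) := by
      rw [div_mul_eq_mul_div, div_le_iff₀ pa]
      nlinarith
    have e2 : b / ((√b + ε) / (√a + ε)) ≤ (√a + ε) * (√b + ε) := by
      rw [div_div_eq_mul_div, div_le_iff₀ pb]
      nlinarith
    linarith
  have h2 : Tendsto (fun ε : ℝ => A * ((√a + ε) * (√b + ε))) (𝓝[>] 0) (𝓝 (A * ((√a + 0) * (√b + 0)))) := by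
    apply Tendsto.mono_left _ nhdsWithin_le_nhds
    apply Continuous.tendsto
    fun_prop
  have h3 := ge_of_tendsto h2 (by filter_upwards [self_mem_nhdsWithin] with ε hε using h1 ε hε)
  simpa [mul_assoc] using h3

theorem om_pos : (0 : ℝ) < Real.pi / Real.log 2 := by
  have := Real.log_pos (by norm_num : (1:ℝ) < 2)
  positivity

/-- frequencies -/
noncomputable def α (i : ℕ) : ℝ := -((2 * i + 1) * (Real.pi / Real.log 2))
noncomputable def β (j : ℕ) : ℝ := 2 * j * (Real.pi / Real.log 2)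

theorem freq_lim (A x₀ : ℝ) (h : ∀ x : ℝ, x₀ ≤ x → |S x| ≤ A * x) (K : ℕ) (c : ℕ → ℂ)
    (hc : ∀ k < K, Tendsto (fun σ : ℝ => ((σ : ℂ) - 1) * Dir (σ + om k * I) / (σ + om k * I)) (𝓝[>] 1)
    (𝓝 (c k))) (i j : ℕ) (hi : i < K) (hj : j < K) :
    Tendsto (fun σ : ℝ => ((σ : ℂ) - 1) * F σ (α i + β j)) (𝓝[>] 1) (𝓝 (Fh c i j)) := by
  have hk : ∀ k < K, Tendsto (fun σ : ℝ => ((σ : ℂ) - 1) * F σ (-(om k))) (𝓝[>] 1) (𝓝 (c k)) := by
    intro k hk
    refine (hc k hk).congr' ?_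
    filter_upwards [self_mem_nhdsWithin] with σ hσ
    exact dirF A x₀ h σ (om k) hσ
  unfold Fh
  split_ifs with hij
  · have e : α i + β j = -(om (i - j)) := by
      unfold α β om
      rw [Nat.cast_sub hij]
      ring
    rw [e]
    exact hk _ (by omega)
  · have hij' : i < j := by omega
    have e : α i + β j = om (j - i - 1) := by
      unfold α β om
      rw [Nat.cast_sub (by omega), Nat.cast_sub (by omega)]
      push_cast
      ring
    have h1 := (Complex.continuous_conj.tendsto _).comp (hk (j - i - 1) (by omega))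
    refine h1.congr' ?_
    filter_upwards with σ
    simp only [Function.comp]
    rw [map_mul, F_conj, neg_neg, e, map_sub, Complex.conj_ofReal, map_one]

theorem ptw (K : ℕ) (v w : ℕ → ℂ) (A B : ℝ) (hA : 0 ≤ A) (hB : 0 ≤ B)
    (h : ∀ t : ℝ, 1 ≤ t → |S t| ≤ A * t + B) (σ : ℝ) (hσ : 1 < σ) (τ : ℝ) (hτ : 0 < τ) :
    ‖∑ i ∈ range K, ∑ j ∈ range K, v i * w j * (((σ : ℂ) - 1) * F σ (α i + β j))‖ ≤
      A * ((τ * ((σ - 1) * ∫ t in Set.Ioi (1:ℝ), t ^ (-σ) * ‖∑ i ∈ range K, v i * X (α i) t‖ ^ 2) +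
        ((σ - 1) * ∫ t in Set.Ioi (1:ℝ), t ^ (-σ) * ‖∑ j ∈ range K, w j * X (β j) t‖ ^ 2) / τ) / 2) +
      B * ((∑ i ∈ range K, ‖v i‖) * (∑ j ∈ range K, ‖w j‖)) * ((σ - 1) * (1 / σ)) := by
  set P : ℝ → ℂ := fun t => ∑ i ∈ range K, v i * X (α i) t with hP
  set Q : ℝ → ℂ := fun t => ∑ j ∈ range K, w j * X (β j) t with hQ
  set M := (∑ i ∈ range K, ‖v i‖) * (∑ j ∈ range K, ‖w j‖) with hM
  have hPn : ∀ t, 0 < t → ‖P t‖ ≤ ∑ i ∈ range K, ‖v i‖ := by
    intro t ht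
    refine (norm_sum_le _ _).trans (le_of_eq ?_)
    apply Finset.sum_congr rfl
    intro i _
    rw [norm_mul, X_norm _ _ ht, mul_one]
  have hQn : ∀ t, 0 < t → ‖Q t‖ ≤ ∑ j ∈ range K, ‖w j‖ := by
    intro t ht
    refine (norm_sum_le _ _).trans (le_of_eq ?_)
    apply Finset.sum_congr rfl
    intro i _
    rw [norm_mul, X_norm _ _ ht, mul_one]
  have hPc : ContinuousOn P (Set.Ioi 1) := by
    apply continuousOn_finset_sum
    intro i _
    exact continuousOn_const.mul (X_cont _)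
  have hQc : ContinuousOn Q (Set.Ioi 1) := by
    apply continuousOn_finset_sum
    intro i _
    exact continuousOn_const.mul (X_cont _)
  -- integrability of the squares
  have sqint : ∀ (R : ℝ → ℂ) (m : ℝ), ContinuousOn R (Set.Ioi 1) → (∀ t, 0 < t → ‖R t‖ ≤ m) →
      IntegrableOn (fun t : ℝ => t ^ (-σ) * ‖R t‖ ^ 2) (Set.Ioi 1) := by
    intro R m hRc hRm
    refine Integrable.mono' ((rint σ hσ).mul_const (m ^ 2)) ?_ ?_
    · apply AEStronglyMeasurable.mul
      · exact (measurable_id.pow_const _).aestronglyMeasurable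
      · exact (hRc.norm.pow 2).aestronglyMeasurable measurableSet_Ioi
    · rw [ae_restrict_iff' measurableSet_Ioi]
      filter_upwards with t ht
      have ht' : (0:ℝ) < t := lt_trans one_pos ht
      have hp : 0 < t ^ (-σ) := Real.rpow_pos_of_pos ht' _
      rw [Real.norm_eq_abs, abs_of_nonneg (by positivity)]
      have := hRm t ht'
      have h0 := norm_nonneg (R t)
      gcongr
  have iP := sqint P _ hPc hPn
  have iQ := sqint Q _ hQc hQn
  -- the sum as one integral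
  have e1 : ∑ i ∈ range K, ∑ j ∈ range K, v i * w j * (((σ : ℂ) - 1) * F σ (α i + β j)) =
      ((σ : ℂ) - 1) * ∫ t in Set.Ioi (1:ℝ), ((S t * t ^ (-σ - 1) : ℝ) : ℂ) * (P t * Q t) := by
    have e2 : ∫ t in Set.Ioi (1:ℝ), ((S t * t ^ (-σ - 1) : ℝ) : ℂ) * (P t * Q t) =
        ∫ t in Set.Ioi (1:ℝ), ∑ i ∈ range K, ∑ j ∈ range K, (v i * w j) *
          (((S t * t ^ (-σ - 1) : ℝ) : ℂ) * X (α i + β j) t) := by
      apply setIntegral_congr_fun measurableSet_Ioi
      intro t ht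
      have ht' : (0:ℝ) < t := lt_trans one_pos ht
      simp only [hP, hQ]
      rw [Finset.sum_mul_sum, Finset.mul_sum]
      apply Finset.sum_congr rfl
      intro i _
      rw [Finset.mul_sum]
      apply Finset.sum_congr rfl
      intro j _
      rw [← X_mul _ _ _ ht']
      ring
    rw [e2, integral_finsetSum]
    · rw [Finset.mul_sum]
      apply Finset.sum_congr rfl
      intro i _
      rw [integral_finsetSum]
      · rw [Finset.mul_sum]
        apply Finset.sum_congr rfl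
        intro j _
        rw [integral_const_mul]
        unfold F
        ring
      · intro j _
        exact (F_intg A B hA hB h σ _ hσ).const_mul _
    · intro i _
      apply integrable_finsetSum
      intro j _
      exact (F_intg A B hA hB h σ _ hσ).const_mul _
  rw [e1, norm_mul]
  have hσ1 : ‖(σ : ℂ) - 1‖ = σ - 1 := by
    rw [← Complex.ofReal_one, ← Complex.ofReal_sub, Complex.norm_real, Real.norm_of_nonneg (by linarith)]
  rw [hσ1]
  have hg : IntegrableOn (fun t : ℝ => A * ((τ * (t ^ (-σ) * ‖P t‖ ^ 2) + (t ^ (-σ) * ‖Q t‖ ^ 2) / τ) / 2) +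
      B * M * t ^ (-σ - 1)) (Set.Ioi 1) :=
    ((((iP.const_mul τ).add (iQ.div_const τ)).div_const 2).const_mul A).add ((rint1 σ hσ).const_mul (B * M))
  have h2 := norm_integral_le_of_norm_le hg (f := fun t => ((S t * t ^ (-σ - 1) : ℝ) : ℂ) * (P t * Q t)) (by
    rw [ae_restrict_iff' measurableSet_Ioi]
    filter_upwards with t ht
    have ht' : (0:ℝ) < t := lt_trans one_pos ht
    rw [norm_mul, Complex.norm_real, Real.norm_eq_abs, norm_mul]
    have k1 := kbound A B hA hB h σ t ht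
    have p1 : 0 < t ^ (-σ) := Real.rpow_pos_of_pos ht' _
    have p2 : 0 < t ^ (-σ - 1) := Real.rpow_pos_of_pos ht' _
    have n1 := norm_nonneg (P t)
    have n2 := norm_nonneg (Q t)
    have q1 : ‖P t‖ * ‖Q t‖ ≤ (τ * ‖P t‖ ^ 2 + ‖Q t‖ ^ 2 / τ) / 2 := by
      rw [le_div_iff₀ (by norm_num : (0:ℝ) < 2)]
      have : τ * (τ * ‖P t‖ ^ 2 + ‖Q t‖ ^ 2 / τ - ‖P t‖ * ‖Q t‖ * 2) = (τ * ‖P t‖ - ‖Q t‖) ^ 2 := by
        field_simp
        ring
      have h3 : 0 ≤ τ * ‖P t‖ ^ 2 + ‖Q t‖ ^ 2 / τ - ‖P t‖ * ‖Q t‖ * 2 := by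
        by_contra hcon
        push Not at hcon
        have := mul_neg_of_pos_of_neg hτ hcon
        nlinarith [sq_nonneg (τ * ‖P t‖ - ‖Q t‖)]
      linarith
    have q2 : ‖P t‖ * ‖Q t‖ ≤ M := mul_le_mul (hPn t ht') (hQn t ht') n2 (by positivity)
    calc |S t * t ^ (-σ - 1)| * (‖P t‖ * ‖Q t‖)
        ≤ (A * t ^ (-σ) + B * t ^ (-σ - 1)) * (‖P t‖ * ‖Q t‖) :=
          mul_le_mul_of_nonneg_right k1 (by positivity)
      _ = A * t ^ (-σ) * (‖P t‖ * ‖Q t‖) + B * t ^ (-σ - 1) * (‖P t‖ * ‖Q t‖) := by ring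
      _ ≤ A * t ^ (-σ) * ((τ * ‖P t‖ ^ 2 + ‖Q t‖ ^ 2 / τ) / 2) + B * t ^ (-σ - 1) * M :=
          add_le_add (mul_le_mul_of_nonneg_left q1 (by positivity))
            (mul_le_mul_of_nonneg_left q2 (by positivity))
      _ = _ := by ring)
  have h3 := mul_le_mul_of_nonneg_left h2 (by linarith : 0 ≤ σ - 1)
  refine h3.trans (le_of_eq ?_)
  have e5 : ∫ t in Set.Ioi (1:ℝ), t ^ (-σ - 1) = 1 / σ := by
    rw [integral_Ioi_rpow_of_lt (by linarith) one_pos, Real.one_rpow]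
    have : σ ≠ 0 := by linarith
    rw [show -σ - 1 + 1 = -σ by ring, neg_div_neg_eq]
  have a1 : IntegrableOn (fun t : ℝ => A * ((τ * (t ^ (-σ) * ‖P t‖ ^ 2) + (t ^ (-σ) * ‖Q t‖ ^ 2) / τ) / 2)) (Set.Ioi 1) :=
    ((((iP.const_mul τ).add (iQ.div_const τ)).div_const 2).const_mul A)
  have a2 : IntegrableOn (fun t : ℝ => B * M * t ^ (-σ - 1)) (Set.Ioi 1) := (rint1 σ hσ).const_mul (B * M)
  rw [integral_add a1 a2, integral_const_mul, integral_div, integral_add (iP.const_mul τ) (iQ.div_const τ),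
    integral_const_mul, integral_div, integral_const_mul, e5]
  ring

theorem taskLap : TaskLap := by
  intro A x₀ hA hS K c hc v w
  obtain ⟨B, hB, hb⟩ := S_bound A x₀ hA hS
  apply opt _ A _ _ hA (Finset.sum_nonneg fun _ _ => by positivity) (Finset.sum_nonneg fun _ _ => by positivity)
  intro τ hτ
  have l1 : Tendsto (fun σ : ℝ => ‖∑ i ∈ range K, ∑ j ∈ range K, v i * w j * (((σ : ℂ) - 1) * F σ (α i + β j))‖)
      (𝓝[>] 1) (𝓝 ‖∑ i ∈ range K, ∑ j ∈ range K, v i * w j * Fh c i j‖) := by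
    apply Tendsto.norm
    apply tendsto_finsetSum
    intro i hi
    apply tendsto_finsetSum
    intro j hj
    exact (freq_lim A x₀ hS K c hc i j (mem_range.1 hi) (mem_range.1 hj)).const_mul _
  have hw := om_pos
  have lP := par K α (by
    intro i _ j _ hij
    unfold α at hij
    have h1 : (2 * (i:ℝ) + 1) * (Real.pi / Real.log 2) = (2 * (j:ℝ) + 1) * (Real.pi / Real.log 2) := by linarith
    have h2 := mul_right_cancel₀ hw.ne' h1
    have h3 : (i:ℝ) = j := by linarith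
    exact_mod_cast h3) v
  have lQ := par K β (by
    intro i _ j _ hij
    unfold β at hij
    have h2 := mul_right_cancel₀ hw.ne' hij
    have h3 : (i:ℝ) = j := by linarith
    exact_mod_cast h3) w
  have lz : Tendsto (fun σ : ℝ => (σ - 1) * (1 / σ)) (𝓝[>] 1) (𝓝 0) := by
    have hc : ContinuousAt (fun σ : ℝ => (σ - 1) * (1 / σ)) 1 := by
      apply ContinuousAt.mul
      · fun_prop
      · exact continuousAt_const.div continuousAt_id one_ne_zero
    have := hc.tendsto.mono_left (nhdsWithin_le_nhds (s := Set.Ioi 1))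
    simpa using this
  have l2 := ((((lP.const_mul τ).add (lQ.div_const τ)).div_const 2).const_mul A).add
    (lz.const_mul (B * ((∑ i ∈ range K, ‖v i‖) * (∑ j ∈ range K, ‖w j‖))))
  rw [mul_zero, add_zero] at l2
  refine le_of_tendsto_of_tendsto l1 l2 ?_
  filter_upwards [self_mem_nhdsWithin] with σ hσ
  exact ptw K v w A B hA hB hb σ hσ τ hτ

end Pool.Agent.H553R3.W
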