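import Pool.Agent.H295R3.W.StmtsB

set_option autoImplicit false

open Finset ArithmeticFunction Filter Topology Complex

namespace Pool.Agent.H553R3.W

open Pool.Agent.H295R3.W

/-- `2^Ω(n) n^{-σ}` as a completely multiplicative function -/
noncomputable def hmul (σ : ℝ) (_hσ : σ ≠ 0) : ℕ →* ℝ where
  toFun n := if n = 0 then 0 else (2 : ℝ) ^ (cardFactors n) * (n : ℝ) ^ (-σ)
  map_one' := by simp
  map_mul' a b := by
    by_cases ha : a = 0
    · simp [ha]
    by_cases hb : b = 0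
    · simp [hb]
    rw [if_neg (mul_ne_zero ha hb), if_neg ha, if_neg hb, cardFactors_mul ha hb, pow_add,
      Nat.cast_mul, Real.mul_rpow (Nat.cast_nonneg a) (Nat.cast_nonneg b)]
    ring

theorem hmul_apply (σ : ℝ) (hσ : σ ≠ 0) (n : ℕ) (hn : n ≠ 0) :
    hmul σ hσ n = (2 : ℝ) ^ (cardFactors n) * (n : ℝ) ^ (-σ) := by
  show (if n = 0 then 0 else (2 : ℝ) ^ (cardFactors n) * (n : ℝ) ^ (-σ)) = _
  rw [if_neg hn]

theorem hmul_zero (σ : ℝ) (hσ : σ ≠ 0) : hmul σ hσ 0 = 0 := by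
  show (if (0:ℕ) = 0 then (0:ℝ) else (2 : ℝ) ^ (cardFactors 0) * ((0:ℕ) : ℝ) ^ (-σ)) = 0
  rw [if_pos rfl]

theorem hmul_nonneg (σ : ℝ) (hσ : σ ≠ 0) (n : ℕ) : 0 ≤ hmul σ hσ n := by
  by_cases hn : n = 0
  · rw [hn, hmul_zero]
  · rw [hmul_apply σ hσ n hn]; positivity

theorem hmul_prime (σ : ℝ) (hσ : 1 < σ) (p : ℕ) (hp : p.Prime) :
    hmul σ (by linarith) p = 2 * (p : ℝ) ^ (-σ) := by
  rw [hmul_apply _ _ p hp.ne_zero, cardFactors_apply_prime hp, pow_one]

theorem hmul_prime_le (σ : ℝ) (hσ : 1 < σ) (p : ℕ) (hp : p.Prime) :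
    hmul σ (by linarith) p ≤ 2 * (2 : ℝ) ^ (-σ) := by
  rw [hmul_prime σ hσ p hp]
  have h2 : (2 : ℝ) ≤ p := by exact_mod_cast hp.two_le
  have := Real.rpow_le_rpow_of_nonpos (by norm_num : (0:ℝ) < 2) h2 (by linarith : -σ ≤ 0)
  linarith

theorem two_lt_one (σ : ℝ) (hσ : 1 < σ) : 2 * (2 : ℝ) ^ (-σ) < 1 := by
  have : (2 : ℝ) ^ (-σ) < (2 : ℝ) ^ (-1 : ℝ) :=
    Real.rpow_lt_rpow_of_exponent_lt (by norm_num) (by linarith)
  rw [Real.rpow_neg_one] at this
  linarith

theorem summ (σ : ℝ) (hσ : 1 < σ) : Summable (fun n => hmul σ (by linarith) n) := by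
  have hσ0 : σ ≠ 0 := by linarith
  set h := hmul σ hσ0 with hh
  have hlt : ∀ {p : ℕ}, p.Prime → ‖h p‖ < 1 := by
    intro p hp
    rw [Real.norm_of_nonneg (hmul_nonneg _ _ _)]
    exact lt_of_le_of_lt (hmul_prime_le σ hσ p hp) (two_lt_one σ hσ)
  set q := 2 * (2 : ℝ) ^ (-σ) with hq
  have hq1 : q < 1 := two_lt_one σ hσ
  have hq0 : 0 < q := by rw [hq]; positivity
  have hz : Summable (fun n : ℕ => (n : ℝ) ^ (-σ)) := Real.summable_nat_rpow.2 (by linarith)
  set B := ∑' n : ℕ, (n : ℝ) ^ (-σ) with hB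
  refine summable_of_sum_range_le (c := Real.exp (2 * B / (1 - q))) (fun n => hmul_nonneg _ _ _) ?_
  intro N
  obtain ⟨hs1, hs2⟩ := EulerProduct.summable_and_hasSum_smoothNumbers_prod_primesBelow_geometric
    (f := h) hlt N
  have e1 : ∑ i ∈ range N, h i ≤ ∏ p ∈ N.primesBelow, (1 - h p)⁻¹ := by
    rw [← hs2.tsum_eq]
    have hs3 : Summable (fun m : N.smoothNumbers => h m) := hs2.summable
    -- compare
    have hsub : ∀ i ∈ (range N).filter (fun i => i ≠ 0), i ∈ N.smoothNumbers := by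
      intro i hi
      rw [mem_filter, mem_range] at hi
      exact Nat.mem_smoothNumbers_of_lt (Nat.pos_of_ne_zero hi.2) hi.1
    have e2 : ∑ i ∈ range N, h i = ∑ i ∈ (range N).filter (fun i => i ≠ 0), h i := by
      rw [sum_filter]
      apply sum_congr rfl
      intro i _
      split_ifs with hi
      · rfl
      · push Not at hi; rw [hi, hh, hmul_zero]
    rw [e2, ← Finset.sum_subtype_of_mem (p := fun i => i ∈ N.smoothNumbers) (fun i => h i) hsub]
    exact hs3.sum_le_tsum _ (fun i _ => hmul_nonneg _ _ _)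
  refine e1.trans ?_
  have e3 : ∀ p ∈ N.primesBelow, (1 - h p)⁻¹ ≤ Real.exp (2 * (p : ℝ) ^ (-σ) / (1 - q)) := by
    intro p hp
    have hp' : p.Prime := Nat.prime_of_mem_primesBelow hp
    have h1 : h p = 2 * (p : ℝ) ^ (-σ) := hmul_prime σ hσ p hp'
    have h2 : h p ≤ q := hmul_prime_le σ hσ p hp'
    have h0 : 0 ≤ h p := hmul_nonneg _ _ _
    have h3 : (1 - h p)⁻¹ ≤ 1 + h p / (1 - q) := by
      have hpos : 0 < 1 - h p := by linarith
      have hqpos : 0 < 1 - q := by linarith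
      rw [inv_le_iff_one_le_mul₀ hpos]
      have : 1 + h p / (1 - q) ≥ 1 + h p / (1 - h p) - 0 - (h p / (1 - h p) - h p / (1 - q)) := by
        linarith
      have h4 : h p / (1 - h p) ≤ h p / (1 - q) := by
        apply div_le_div_of_nonneg_left h0 hqpos
        linarith
      have h5 : (1 + h p / (1 - h p)) * (1 - h p) = 1 := by
        field_simp
        ring
      nlinarith
    refine h3.trans ?_
    rw [h1]
    have := Real.add_one_le_exp (2 * (p : ℝ) ^ (-σ) / (1 - q))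
    linarith
  calc ∏ p ∈ N.primesBelow, (1 - h p)⁻¹
      ≤ ∏ p ∈ N.primesBelow, Real.exp (2 * (p : ℝ) ^ (-σ) / (1 - q)) := by
        apply Finset.prod_le_prod _ e3
        intro p hp
        have hp' : p.Prime := Nat.prime_of_mem_primesBelow hp
        have h2 : h p ≤ q := hmul_prime_le σ hσ p hp'
        have : 0 < 1 - h p := by linarith
        positivity
    _ = Real.exp (∑ p ∈ N.primesBelow, 2 * (p : ℝ) ^ (-σ) / (1 - q)) := by
        rw [Real.exp_sum]
    _ ≤ Real.exp (2 * B / (1 - q)) := by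
        apply Real.exp_le_exp.2
        rw [← Finset.sum_div, ← Finset.mul_sum]
        have hqpos : 0 < 1 - q := by linarith
        apply div_le_div_of_nonneg_right _ hqpos.le
        apply mul_le_mul_of_nonneg_left _ (by norm_num)
        exact hz.sum_le_tsum _ (fun i _ => by positivity)

/-- absolute convergence of `∑ f(n) n^{-s}` for `Re s > 1` -/
theorem lsumm (s : ℂ) (hs : 1 < s.re) : LSeriesSummable (fun n => (f n : ℂ)) s := by
  have h1 := summ s.re hs
  unfold LSeriesSummable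
  refine Summable.of_norm_bounded h1 ?_
  intro n
  by_cases hn : n = 0
  · rw [hn, LSeries.term_zero, norm_zero]; exact hmul_nonneg _ _ _
  · rw [LSeries.term_of_ne_zero hn, hmul_apply _ _ n hn, norm_div,
      Complex.norm_natCast_cpow_of_pos (Nat.pos_of_ne_zero hn), Real.rpow_neg (Nat.cast_nonneg n),
      div_eq_mul_inv, Complex.norm_real, f, Real.norm_eq_abs, abs_pow, abs_neg, abs_two]

theorem dir_eq (s : ℂ) (hs : 1 < s.re) : Dir s = LSeries (fun n => (f n : ℂ)) s := by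
  unfold Dir LSeries
  apply tsum_congr
  intro n
  by_cases hn : n = 0
  · have : s ≠ 0 := by
      rintro rfl
      norm_num at hs
    rw [hn, LSeries.term_zero, Nat.cast_zero, Complex.zero_cpow (neg_ne_zero.2 this), mul_zero]
  · rw [LSeries.term_of_ne_zero hn, Complex.cpow_neg, div_eq_mul_inv]

end Pool.Agent.H553R3.W
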