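import Pool.Agent.H553R3.W.LapA

set_option autoImplicit false

open Finset ArithmeticFunction Filter Topology Complex MeasureTheory

namespace Pool.Agent.H553R3.W

open Pool.Agent.H295R3.W

/-- oscillating factor -/
noncomputable def X (α t : ℝ) : ℂ := (t : ℂ) ^ ((α : ℂ) * I)

theorem X_norm (α t : ℝ) (ht : 0 < t) : ‖X α t‖ = 1 := by
  unfold X
  rw [Complex.norm_cpow_eq_rpow_re_of_pos ht]
  simp

theorem X_mul (α β t : ℝ) (ht : 0 < t) : X α t * X β t = X (α + β) t := by
  unfold X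
  rw [← Complex.cpow_add _ _ (by exact_mod_cast ht.ne')]
  congr 1
  push_cast
  ring

theorem X_conj (α t : ℝ) (ht : 0 < t) : (starRingEnd ℂ) (X α t) = X (-α) t := by
  unfold X
  have h := Complex.cpow_conj (t : ℂ) ((α : ℂ) * I) (by
    rw [Complex.arg_ofReal_of_nonneg ht.le]; exact Real.pi_pos.ne)
  rw [Complex.conj_ofReal] at h
  rw [← h, map_mul, Complex.conj_ofReal, Complex.conj_I]
  congr 1
  push_cast
  ring

theorem X_cont (α : ℝ) : ContinuousOn (X α) (Set.Ioi 1) := by
  unfold X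
  intro t ht
  have ht' : (0:ℝ) < t := lt_trans one_pos ht
  apply ContinuousAt.continuousWithinAt
  exact Complex.continuousAt_ofReal_cpow_const t _ (Or.inr ht'.ne')

theorem intX (σ θ : ℝ) (hσ : 1 < σ) :
    ∫ t in Set.Ioi (1:ℝ), ((t ^ (-σ) : ℝ) : ℂ) * X θ t = 1 / ((σ : ℂ) - 1 - θ * I) := by
  have h := integral_Ioi_cpow_of_lt (a := -(σ : ℂ) + θ * I) (by simp; linarith) (c := 1) one_pos
  have e : ∫ t in Set.Ioi (1:ℝ), ((t ^ (-σ) : ℝ) : ℂ) * X θ t = ∫ t in Set.Ioi (1:ℝ), (t : ℂ) ^ (-(σ : ℂ) + θ * I) := by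
    apply setIntegral_congr_fun measurableSet_Ioi
    intro t ht
    have ht' : (0:ℝ) < t := lt_trans one_pos ht
    simp only [X]
    rw [Complex.ofReal_cpow ht'.le, ← Complex.cpow_add _ _ (by exact_mod_cast ht'.ne')]
    congr 1
    push_cast
    ring
  rw [e, h, Complex.ofReal_one, Complex.one_cpow]
  have h1 : (σ : ℂ) - 1 - θ * I ≠ 0 := by
    intro h0
    have := congrArg Complex.re h0
    simp at this
    linarith
  have h2 : -(σ : ℂ) + θ * I + 1 ≠ 0 := by
    intro h0
    apply h1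
    linear_combination -h0
  rw [div_eq_div_iff h2 h1]
  ring

theorem intgX (σ θ : ℝ) (hσ : 1 < σ) :
    IntegrableOn (fun t : ℝ => ((t ^ (-σ) : ℝ) : ℂ) * X θ t) (Set.Ioi 1) := by
  have h := integrableOn_Ioi_cpow_of_lt (a := -(σ : ℂ) + θ * I) (by simp; linarith) (c := 1) one_pos
  refine h.congr_fun ?_ measurableSet_Ioi
  intro t ht
  have ht' : (0:ℝ) < t := lt_trans one_pos ht
  simp only [X]
  rw [Complex.ofReal_cpow ht'.le, ← Complex.cpow_add _ _ (by exact_mod_cast ht'.ne')]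
  congr 1
  push_cast
  ring

/-- mean value of one oscillating factor -/
theorem mean (θ : ℝ) : Tendsto (fun σ : ℝ => ((σ : ℂ) - 1) * (1 / ((σ : ℂ) - 1 - θ * I))) (𝓝[>] 1)
    (𝓝 (if θ = 0 then 1 else 0)) := by
  by_cases hθ : θ = 0
  · rw [if_pos hθ, hθ]
    apply Tendsto.congr' (f₁ := fun _ => (1 : ℂ)) _ tendsto_const_nhds
    filter_upwards [self_mem_nhdsWithin] with σ hσ
    have : (σ : ℂ) - 1 ≠ 0 := by
      intro h0
      have := congrArg Complex.re h0
      simp at this
      have h1 : (1:ℝ) < σ := hσ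
      linarith
    rw [Complex.ofReal_zero, zero_mul, sub_zero, mul_one_div_cancel this]
  · rw [if_neg hθ]
    have hc : ContinuousAt (fun σ : ℝ => ((σ : ℂ) - 1) * (1 / ((σ : ℂ) - 1 - θ * I))) 1 := by
      have hne : ((1:ℝ) : ℂ) - 1 - θ * I ≠ 0 := by
        intro h0
        have := congrArg Complex.im h0
        simp at this
        exact hθ this
      have h1 : ContinuousAt (fun σ : ℝ => ((σ : ℂ) - 1)) 1 :=
        (Complex.continuous_ofReal.sub continuous_const).continuousAt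
      have h2 : ContinuousAt (fun σ : ℝ => ((σ : ℂ) - 1 - θ * I)) 1 :=
        ((Complex.continuous_ofReal.sub continuous_const).sub continuous_const).continuousAt
      exact h1.mul (continuousAt_const.div h2 hne)
    have h3 := hc.tendsto
    simp only [Complex.ofReal_one, sub_self, zero_mul] at h3
    exact h3.mono_left nhdsWithin_le_nhds

/-- Parseval -/
theorem par (K : ℕ) (α : ℕ → ℝ) (hinj : ∀ i < K, ∀ j < K, α i = α j → i = j) (v : ℕ → ℂ) :
    Tendsto (fun σ : ℝ => (σ - 1) * ∫ t in Set.Ioi (1:ℝ), t ^ (-σ) * ‖∑ i ∈ range K, v i * X (α i) t‖ ^ 2)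
      (𝓝[>] 1) (𝓝 (∑ i ∈ range K, ‖v i‖ ^ 2)) := by
  have key : ∀ σ : ℝ, 1 < σ →
      (((σ - 1) * ∫ t in Set.Ioi (1:ℝ), t ^ (-σ) * ‖∑ i ∈ range K, v i * X (α i) t‖ ^ 2 : ℝ) : ℂ) =
      ∑ i ∈ range K, ∑ j ∈ range K, (v i * (starRingEnd ℂ) (v j)) *
        (((σ : ℂ) - 1) * (1 / ((σ : ℂ) - 1 - ((α i - α j : ℝ) : ℂ) * I))) := by
    intro σ hσ
    rw [Complex.ofReal_mul, ← integral_complex_ofReal]
    have e : ∫ t in Set.Ioi (1:ℝ), ((t ^ (-σ) * ‖∑ i ∈ range K, v i * X (α i) t‖ ^ 2 : ℝ) : ℂ) =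
        ∫ t in Set.Ioi (1:ℝ), ∑ i ∈ range K, ∑ j ∈ range K, (v i * (starRingEnd ℂ) (v j)) *
          (((t ^ (-σ) : ℝ) : ℂ) * X (α i - α j) t) := by
      apply setIntegral_congr_fun measurableSet_Ioi
      intro t ht
      have ht' : (0:ℝ) < t := lt_trans one_pos ht
      simp only
      rw [Complex.ofReal_mul, Complex.ofReal_pow, ← Complex.mul_conj', map_sum, Finset.sum_mul_sum,
        Finset.mul_sum]
      apply Finset.sum_congr rfl
      intro i _
      rw [Finset.mul_sum]
      apply Finset.sum_congr rfl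
      intro j _
      rw [map_mul, X_conj _ _ ht', sub_eq_add_neg, ← X_mul _ _ _ ht']
      ring
    rw [e, integral_finsetSum]
    · rw [Finset.mul_sum]
      apply Finset.sum_congr rfl
      intro i _
      rw [integral_finsetSum]
      · rw [Finset.mul_sum]
        apply Finset.sum_congr rfl
        intro j _
        rw [integral_const_mul, intX σ _ hσ]
        push_cast
        ring
      · intro j _
        exact (intgX σ _ hσ).const_mul _
    · intro i _
      apply integrable_finsetSum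
      intro j _
      exact (intgX σ _ hσ).const_mul _
  have lim : Tendsto (fun σ : ℝ => ∑ i ∈ range K, ∑ j ∈ range K, (v i * (starRingEnd ℂ) (v j)) *
        (((σ : ℂ) - 1) * (1 / ((σ : ℂ) - 1 - ((α i - α j : ℝ) : ℂ) * I)))) (𝓝[>] 1)
      (𝓝 (∑ i ∈ range K, ∑ j ∈ range K, (v i * (starRingEnd ℂ) (v j)) *
        (if α i - α j = 0 then 1 else 0))) := by
    apply tendsto_finsetSum
    intro i _
    apply tendsto_finsetSum
    intro j _
    exact (mean (α i - α j)).const_mul _
  have hval : ∑ i ∈ range K, ∑ j ∈ range K, (v i * (starRingEnd ℂ) (v j)) *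
        (if α i - α j = 0 then (1:ℂ) else 0) = ((∑ i ∈ range K, ‖v i‖ ^ 2 : ℝ) : ℂ) := by
    push_cast
    apply Finset.sum_congr rfl
    intro i hi
    rw [Finset.sum_eq_single_of_mem i hi]
    · rw [sub_self, if_pos rfl, mul_one, Complex.mul_conj']
    · intro j hj hne
      rw [if_neg, mul_zero]
      intro h0
      exact hne (hinj i (mem_range.1 hi) j (mem_range.1 hj) (by linarith)).symm
  rw [hval] at lim
  have h4 := (Complex.continuous_re.tendsto _).comp lim
  refine Tendsto.congr' ?_ h4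
  filter_upwards [self_mem_nhdsWithin] with σ hσ
  simp only [Function.comp]
  rw [← key σ hσ, Complex.ofReal_re]

end Pool.Agent.H553R3.W
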